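import Mathlib

set_option autoImplicit false

/-!
# MP_482303_co: the automorphism group of the wreath-type blow-up of a `1`-design

For a set `T` of points of the blow-up let `comp T` be the set of the points `z ∉ T` such that
`T ∪ {z}` is a block.  If `T` is a block minus its only point in the fibre `j`, then `comp T` is the
whole fibre `j`.  If the block size of the `1`-design is at least `3`, the fibres are the only sets
`comp T` with as many points as a fibre.  If the block size is `2` and there are at least `3`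
fibres, they are the only such sets for which in addition the union of all `T'` with
`comp T' = comp T` has at least twice as many points as a fibre.  So automorphisms permute the
fibres.
-/

open Finset

namespace Pool.Agent.Results.MP_482303_co.WreathBlowUp

/-- `𝓑` is the block set of a `1`-design on `α`: all blocks have `k ≥ 2` points, and every point
lies in `r ≥ 1` blocks. -/
structure IsOneDesign {α : Type} (𝓑 : Set (Finset α)) (k r : ℕ) : Prop where
  two_le : 2 ≤ k
  one_le : 1 ≤ r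
  card_block : ∀ B ∈ 𝓑, B.card = k
  card_point : ∀ p, {B | B ∈ 𝓑 ∧ p ∈ B}.ncard = r

/-- The automorphism group of a design: the permutations of the points that map the block set onto
itself. -/
def aut {X : Type} (𝓑 : Set (Finset X)) : Subgroup (Equiv.Perm X) where
  carrier := {g | (fun B => B.map g.toEmbedding) '' 𝓑 = 𝓑}
  one_mem' := by
    have : (fun B : Finset X => B.map (1 : Equiv.Perm X).toEmbedding) = id := by
      funext B
      exact Finset.map_refl
    rw [Set.mem_ofPred_eq, this, Set.image_id]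
  mul_mem' := by
    intro g h hg hh
    rw [Set.mem_ofPred_eq] at *
    have : (fun B : Finset X => B.map (g * h).toEmbedding) =
        (fun B : Finset X => B.map g.toEmbedding) ∘ (fun B : Finset X => B.map h.toEmbedding) := by
      funext B
      simp only [Function.comp_apply, Finset.map_map]
      rfl
    rw [this, Set.image_comp, hh, hg]
  inv_mem' := by
    intro g hg
    rw [Set.mem_ofPred_eq] at *
    have : (fun B : Finset X => B.map (g⁻¹ : Equiv.Perm X).toEmbedding) ∘
        (fun B : Finset X => B.map g.toEmbedding) = id := by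
      funext B
      simp only [Function.comp_apply, Finset.map_map]
      ext x
      simp
    conv_lhs => rw [← hg]
    rw [← Set.image_comp, this, Set.image_id]

variable {α Δ : Type} [Fintype α] [Fintype Δ] [DecidableEq α] [DecidableEq Δ]

/-- The blow-up: the sets `B` of points of `α × Δ` such that for some `i` the part of `B` in the
fibre `i` is a block `B₀ × {i}` and `B` has exactly one point in each other fibre. -/
def blowUp (𝓑 : Set (Finset α)) (Δ : Type) [Fintype Δ] [DecidableEq Δ] :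
    Set (Finset (α × Δ)) :=
  {B | ∃ i : Δ, (∃ B₀ ∈ 𝓑, B ∩ (univ ×ˢ {i}) = B₀ ×ˢ {i}) ∧
    ∀ j, j ≠ i → (B ∩ (univ ×ˢ {j})).card = 1}

/-- The wreath product of a permutation group `H` on `α` with the symmetric group of `Δ` in its
imprimitive action on `α × Δ`. -/
def wreath (Δ : Type) (H : Subgroup (Equiv.Perm α)) : Subgroup (Equiv.Perm (α × Δ)) where
  carrier := {g | ∃ (h : Δ → Equiv.Perm α) (σ : Equiv.Perm Δ), (∀ j, h j ∈ H) ∧
    ∀ p j, g (p, j) = (h j p, σ j)}
  one_mem' := ⟨fun _ => 1, 1, fun _ => H.one_mem, fun _ _ => rfl⟩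
  mul_mem' := by
    rintro g g' ⟨h, σ, hh, hg⟩ ⟨h', σ', hh', hg'⟩
    refine ⟨fun j => h (σ' j) * h' j, σ * σ', fun j => H.mul_mem (hh _) (hh' _), fun p j => ?_⟩
    rw [Equiv.Perm.mul_apply, hg', hg]
    rfl
  inv_mem' := by
    rintro g ⟨h, σ, hh, hg⟩
    refine ⟨fun j => (h (σ⁻¹ j))⁻¹, σ⁻¹, fun j => H.inv_mem (hh _), fun p j => ?_⟩
    rw [Equiv.Perm.inv_eq_iff_eq, hg]
    simp

/-- the section of a set of points at `j` -/
def sec (B : Finset (α × Δ)) (j : Δ) : Finset α := univ.filter (fun p => (p, j) ∈ B)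

omit [Fintype Δ] in
theorem mem_sec {B : Finset (α × Δ)} {j : Δ} {p : α} : p ∈ sec B j ↔ (p, j) ∈ B := by
  simp [sec]

omit [Fintype Δ] in
theorem inter_fibre (B : Finset (α × Δ)) (j : Δ) : B ∩ (univ ×ˢ {j}) = sec B j ×ˢ {j} := by
  ext ⟨p, l⟩
  simp only [mem_inter, mem_product, mem_univ, true_and, mem_singleton, mem_sec]
  constructor
  · rintro ⟨h1, rfl⟩
    exact ⟨h1, rfl⟩
  · rintro ⟨h1, rfl⟩
    exact ⟨h1, rfl⟩

theorem mem_blowUp {𝓑 : Set (Finset α)} {B : Finset (α × Δ)} :
    B ∈ blowUp 𝓑 Δ ↔ ∃ i : Δ, sec B i ∈ 𝓑 ∧ ∀ j, j ≠ i → (sec B j).card = 1 := by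
  have hprod : ∀ (i : Δ) (B₀ : Finset α), sec B i ×ˢ {i} = B₀ ×ˢ {i} ↔ sec B i = B₀ := by
    intro i B₀
    constructor
    · intro h
      ext p
      have := congrArg (fun S : Finset (α × Δ) => (p, i) ∈ S) h
      simpa using this
    · intro h
      rw [h]
  unfold blowUp
  simp only [Set.mem_ofPred_eq, inter_fibre, card_product, card_singleton, mul_one, hprod]
  constructor
  · rintro ⟨i, ⟨B₀, hB₀, rfl⟩, h⟩
    exact ⟨i, hB₀, h⟩
  · rintro ⟨i, hi, h⟩
    exact ⟨i, ⟨_, hi, rfl⟩, h⟩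

omit [Fintype Δ] in
theorem sec_insert_same (T : Finset (α × Δ)) (p : α) (j : Δ) :
    sec (insert (p, j) T) j = insert p (sec T j) := by
  ext x
  simp [mem_sec]

omit [Fintype Δ] in
theorem sec_insert_ne (T : Finset (α × Δ)) (p : α) {j l : Δ} (h : l ≠ j) :
    sec (insert (p, j) T) l = sec T l := by
  ext x
  simp [mem_sec, h]

/-- number of points, counted by fibres -/
theorem card_eq_sum (B : Finset (α × Δ)) : B.card = ∑ l, (sec B l).card := by
  rw [Finset.card_eq_sum_card_fiberwise (f := Prod.snd) (t := univ) (by intro x _; simp)]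
  refine sum_congr rfl fun l _ => ?_
  rw [← Finset.card_map (s := sec B l) ⟨fun p => (p, l), fun a b h => congrArg Prod.fst h⟩]
  congr 1
  ext ⟨p, j⟩
  simp only [mem_filter, mem_map, mem_sec]
  constructor
  · rintro ⟨h1, rfl⟩
    exact ⟨p, h1, rfl⟩
  · rintro ⟨a, h1, h2⟩
    cases h2
    exact ⟨h1, rfl⟩

/-- the fibre over `j` -/
def fib (α : Type) [Fintype α] [DecidableEq α] (j : Δ) : Finset (α × Δ) :=
  univ.filter (fun z => z.2 = j)

theorem mem_fib {z : α × Δ} {j : Δ} : z ∈ fib α j ↔ z.2 = j := by simp [fib]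

theorem card_fib (j : Δ) : (fib α j).card = Fintype.card α := by
  rw [card_eq_sum, sum_eq_single j]
  · have : sec (fib α j) j = univ := by
      ext p
      simp [mem_sec, mem_fib]
    rw [this, card_univ]
  · intro l _ hl
    rw [card_eq_zero]
    ext p
    simp [mem_sec, mem_fib, hl]
  · intro h
    exact absurd (mem_univ _) h

open Classical in
/-- the points which complete `T` to a block -/
noncomputable def comp (𝓑 : Set (Finset α)) (T : Finset (α × Δ)) : Finset (α × Δ) :=
  univ.filter (fun z => z ∉ T ∧ insert z T ∈ blowUp 𝓑 Δ)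

theorem mem_comp {𝓑 : Set (Finset α)} {T : Finset (α × Δ)} {z : α × Δ} :
    z ∈ comp 𝓑 T ↔ z ∉ T ∧ insert z T ∈ blowUp 𝓑 Δ := by
  simp [comp]

open Classical in
/-- the points which lie in some `T` with `comp T = Z` -/
noncomputable def uni (𝓑 : Set (Finset α)) (Z : Finset (α × Δ)) : Finset (α × Δ) :=
  univ.filter (fun z => ∃ T, z ∈ T ∧ comp 𝓑 T = Z)

theorem mem_uni {𝓑 : Set (Finset α)} {Z : Finset (α × Δ)} {z : α × Δ} :
    z ∈ uni 𝓑 Z ↔ ∃ T, z ∈ T ∧ comp 𝓑 T = Z := by
  simp [uni]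

omit [Fintype α] [DecidableEq α] [Fintype Δ] [DecidableEq Δ] in
theorem mem_aut_iff {X : Type} {𝓑 : Set (Finset X)} {g : Equiv.Perm X} (hg : g ∈ aut 𝓑)
    (B : Finset X) : B.map g.toEmbedding ∈ 𝓑 ↔ B ∈ 𝓑 := by
  have h : (fun B => B.map g.toEmbedding) '' 𝓑 = 𝓑 := hg
  constructor
  · intro hB
    rw [← h] at hB
    obtain ⟨B', hB', he⟩ := hB
    rwa [← Finset.map_injective _ he]
  · intro hB
    rw [← h]
    exact ⟨B, hB, rfl⟩

theorem comp_map {𝓑 : Set (Finset α)} {g : Equiv.Perm (α × Δ)} (hg : g ∈ aut (blowUp 𝓑 Δ))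
    (T : Finset (α × Δ)) : comp 𝓑 (T.map g.toEmbedding) = (comp 𝓑 T).map g.toEmbedding := by
  ext z
  obtain ⟨y, rfl⟩ := g.surjective z
  have h1 : insert (g y) (T.map g.toEmbedding) = (insert y T).map g.toEmbedding := by
    rw [map_insert]
    rfl
  have h2 : g y ∈ T.map g.toEmbedding ↔ y ∈ T := by
    simp
  have h3 : g y ∈ (comp 𝓑 T).map g.toEmbedding ↔ y ∈ comp 𝓑 T := by
    simp
  rw [h3, mem_comp, mem_comp, h1, h2, mem_aut_iff hg]

theorem uni_map {𝓑 : Set (Finset α)} {g : Equiv.Perm (α × Δ)} (hg : g ∈ aut (blowUp 𝓑 Δ))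
    (Z : Finset (α × Δ)) : (uni 𝓑 Z).map g.toEmbedding ⊆ uni 𝓑 (Z.map g.toEmbedding) := by
  intro z hz
  obtain ⟨y, hy, rfl⟩ := mem_map.1 hz
  obtain ⟨T, hT, rfl⟩ := mem_uni.1 hy
  exact mem_uni.2 ⟨T.map g.toEmbedding, mem_map_of_mem _ hT, comp_map hg T⟩

/-- `T` is a block minus its only point in the fibre `j` -/
def Typ (𝓑 : Set (Finset α)) (j : Δ) (T : Finset (α × Δ)) : Prop :=
  sec T j = ∅ ∧ ∃ i, i ≠ j ∧ sec T i ∈ 𝓑 ∧ ∀ l, l ≠ i → l ≠ j → (sec T l).card = 1

theorem comp_of_typ {𝓑 : Set (Finset α)} {k r : ℕ} (h𝓑 : IsOneDesign 𝓑 k r) {j : Δ}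
    {T : Finset (α × Δ)} (hT : Typ 𝓑 j T) : comp 𝓑 T = fib α j := by
  obtain ⟨hj, i, hij, hi, hl⟩ := hT
  ext ⟨p, m⟩
  rw [mem_comp, mem_fib, mem_blowUp]
  constructor
  · rintro ⟨h1, i', h2, h3⟩
    by_contra hm
    have h4 : sec (insert (p, m) T) j = ∅ := by
      rw [sec_insert_ne T p (Ne.symm hm), hj]
    by_cases hji : j = i'
    · subst hji
      rw [h4] at h2
      have := h𝓑.card_block _ h2
      have := h𝓑.two_le
      simp at *
      omega
    · have := h3 j hji
      rw [h4] at this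
      simp at this
  · rintro rfl
    refine ⟨fun h => ?_, i, ?_, fun l hl' => ?_⟩
    · have : p ∈ sec T m := mem_sec.2 h
      rw [hj] at this
      simp at this
    · rw [sec_insert_ne T p hij]
      exact hi
    · by_cases hlj : l = m
      · subst hlj
        rw [sec_insert_same, hj]
        simp
      · rw [sec_insert_ne T p hlj]
        exact hl l hl' hlj

theorem typ_or {𝓑 : Set (Finset α)} {k r : ℕ} (h𝓑 : IsOneDesign 𝓑 k r)
    {T : Finset (α × Δ)} {z : α × Δ} (hz : z ∈ comp 𝓑 T) : (∃ j, Typ 𝓑 j T) ∨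
      ((sec T z.2).card + 1 = k ∧ insert z.1 (sec T z.2) ∈ 𝓑 ∧
        ∀ l, l ≠ z.2 → (sec T l).card = 1) := by
  obtain ⟨p, j⟩ := z
  rw [mem_comp, mem_blowUp] at hz
  obtain ⟨h1, i, h2, h3⟩ := hz
  have h1' : p ∉ sec T j := fun h => h1 (mem_sec.1 h)
  by_cases hji : j = i
  · subst hji
    right
    rw [sec_insert_same] at h2
    refine ⟨?_, h2, fun l hl => ?_⟩
    · have := h𝓑.card_block _ h2
      rwa [card_insert_of_notMem h1'] at this
    · have := h3 l hl
      rwa [sec_insert_ne T p hl] at this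
  · left
    refine ⟨j, ?_, i, Ne.symm hji, ?_, fun l hl hlj => ?_⟩
    · have := h3 j hji
      rw [sec_insert_same, card_insert_of_notMem h1'] at this
      exact card_eq_zero.1 (by omega)
    · rwa [sec_insert_ne T p (Ne.symm hji)] at h2
    · have := h3 l hl
      rwa [sec_insert_ne T p hlj] at this

/-- if the blocks have at least three points, the fibres are the only sets `comp T` with as many
points as a fibre -/
theorem typ_of_three {𝓑 : Set (Finset α)} {k r : ℕ} (h𝓑 : IsOneDesign 𝓑 k r) (hk : 3 ≤ k)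
    [Nonempty α] {T : Finset (α × Δ)} (hT : (comp 𝓑 T).card = Fintype.card α) :
    ∃ j, Typ 𝓑 j T := by
  by_contra hno
  have hpos : 0 < Fintype.card α := Fintype.card_pos
  obtain ⟨z, hz⟩ := card_pos.1 (by rw [hT]; exact hpos)
  have hz1 := (typ_or h𝓑 hz).resolve_left hno
  obtain ⟨h1, -, h3⟩ := hz1
  have hsub : comp 𝓑 T ⊆ fib α z.2 := by
    intro y hy
    obtain ⟨g1, -, g3⟩ := (typ_or h𝓑 hy).resolve_left hno
    rw [mem_fib]
    by_contra hne
    have := h3 y.2 hne
    omega
  have heq : comp 𝓑 T = fib α z.2 := eq_of_subset_of_card_le hsub (by rw [hT, card_fib])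
  obtain ⟨p, hp⟩ := card_pos.1 (show 0 < (sec T z.2).card by omega)
  have hp' : (p, z.2) ∈ comp 𝓑 T := by
    rw [heq, mem_fib]
  exact (mem_comp.1 hp').1 (mem_sec.1 hp)

open Classical in
/-- the neighbours of `q` in a design with blocks of size two -/
noncomputable def nb (𝓑 : Set (Finset α)) (q : α) : Finset α :=
  univ.filter (fun p => p ≠ q ∧ insert p {q} ∈ 𝓑)

omit [Fintype Δ] [DecidableEq Δ] in
theorem mem_nb {𝓑 : Set (Finset α)} {p q : α} :
    p ∈ nb 𝓑 q ↔ p ≠ q ∧ insert p {q} ∈ 𝓑 := by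
  simp [nb]

omit [Fintype Δ] [DecidableEq Δ] in
theorem nb_symm {𝓑 : Set (Finset α)} {p q : α} (h : p ∈ nb 𝓑 q) : q ∈ nb 𝓑 p := by
  rw [mem_nb] at *
  exact ⟨Ne.symm h.1, by rw [pair_comm]; exact h.2⟩

omit [Fintype Δ] [DecidableEq Δ] in
theorem card_nb {𝓑 : Set (Finset α)} {r : ℕ} (h𝓑 : IsOneDesign 𝓑 2 r) (q : α) :
    (nb 𝓑 q).card = r := by
  rw [← h𝓑.card_point q]
  have himg : {B | B ∈ 𝓑 ∧ q ∈ B} = (fun p => insert p {q}) '' (nb 𝓑 q : Set α) := by
    ext B
    constructor
    · rintro ⟨hB, hq⟩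
      have h2 := h𝓑.card_block B hB
      obtain ⟨a, b, hab, rfl⟩ := card_eq_two.1 h2
      simp only [mem_insert, mem_singleton] at hq
      rcases hq with rfl | rfl
      · exact ⟨b, by
          rw [mem_coe, mem_nb]
          exact ⟨Ne.symm hab, by rw [pair_comm]; exact hB⟩, pair_comm _ _⟩
      · exact ⟨a, by
          rw [mem_coe, mem_nb]
          exact ⟨hab, hB⟩, rfl⟩
    · rintro ⟨p, hp, rfl⟩
      rw [mem_coe, mem_nb] at hp
      exact ⟨hp.2, by simp⟩
  rw [himg, Set.InjOn.ncard_image, Set.ncard_coe_finset]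
  intro a ha b hb hab
  rw [mem_coe, mem_nb] at ha hb
  have h1 : a ∈ ({a, q} : Finset α) := by simp
  rw [show ({a, q} : Finset α) = {b, q} from hab] at h1
  simp only [mem_insert, mem_singleton] at h1
  exact h1.resolve_right ha.1

/-- if the blocks have two points and there are at least three fibres, the fibres are the only sets
`Z = comp T` with as many points as a fibre such that `uni Z` has at least twice as many -/
theorem typ_of_two {𝓑 : Set (Finset α)} {r : ℕ} (h𝓑 : IsOneDesign 𝓑 2 r)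
    (hΔ : 2 ≤ Fintype.card Δ) [Nonempty α] {T : Finset (α × Δ)}
    (hT : (comp 𝓑 T).card = Fintype.card α)
    (hU : 2 * Fintype.card α ≤ (uni 𝓑 (comp 𝓑 T)).card) :
    ∃ j, Typ 𝓑 j T := by
  classical
  by_contra hno
  have hpos : 0 < Fintype.card α := Fintype.card_pos
  -- a set without type whose completion set is not empty is a transversal
  have htrans : ∀ T' : Finset (α × Δ), (¬ ∃ j, Typ 𝓑 j T') → (comp 𝓑 T').Nonempty →
      ∃ q : Δ → α, ∀ l, sec T' l = {q l} := by
    rintro T' hno' ⟨z, hz⟩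
    obtain ⟨h1, -, h3⟩ := (typ_or h𝓑 hz).resolve_left hno'
    have h4 : ∀ l, (sec T' l).card = 1 := by
      intro l
      by_cases hl : l = z.2
      · subst hl; omega
      · exact h3 l hl
    choose q hq using fun l => card_eq_one.1 (h4 l)
    exact ⟨q, hq⟩
  -- the completion set of a transversal
  have hcomp : ∀ (T' : Finset (α × Δ)) (q : Δ → α), (∀ l, sec T' l = {q l}) →
      ∀ p l, (p, l) ∈ comp 𝓑 T' ↔ p ∈ nb 𝓑 (q l) := by
    intro T' q hq p l
    rw [mem_comp, mem_blowUp, mem_nb]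
    have h1 : (p, l) ∉ T' ↔ p ≠ q l := by
      rw [← mem_sec, hq, mem_singleton]
    rw [h1]
    constructor
    · rintro ⟨h2, i, h3, h4⟩
      refine ⟨h2, ?_⟩
      by_cases hli : l = i
      · subst hli
        rwa [sec_insert_same, hq] at h3
      · have := h4 l hli
        rw [sec_insert_same, hq, card_pair h2] at this
        omega
    · rintro ⟨h2, h3⟩
      refine ⟨h2, l, ?_, fun j hj => ?_⟩
      · rwa [sec_insert_same, hq]
      · rw [sec_insert_ne T' p hj, hq, card_singleton]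
  have hne : (comp 𝓑 T).Nonempty := card_pos.1 (by rw [hT]; exact hpos)
  obtain ⟨q, hq⟩ := htrans T hno hne
  have hcT := hcomp T q hq
  have hr := h𝓑.one_le
  have hw : ∀ l, ∃ w, w ∈ nb 𝓑 (q l) := by
    intro l
    have := card_nb h𝓑 (q l)
    exact card_pos.1 (by omega)
  choose w hw using hw
  -- the number of points of `comp T`
  have hcard : (comp 𝓑 T).card = Fintype.card Δ * r := by
    rw [card_eq_sum]
    have : ∀ l, sec (comp 𝓑 T) l = nb 𝓑 (q l) := by
      intro l
      ext p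
      rw [mem_sec, hcT]
    simp [this, card_nb h𝓑]
  -- the number of points of the union
  have hUle : (uni 𝓑 (comp 𝓑 T)).card ≤ Fintype.card Δ * r := by
    rw [card_eq_sum]
    have : ∀ l, (sec (uni 𝓑 (comp 𝓑 T)) l).card ≤ r := by
      intro l
      rw [← card_nb h𝓑 (w l)]
      apply card_le_card
      intro x hx
      rw [mem_sec, mem_uni] at hx
      obtain ⟨T', hxT, hTT⟩ := hx
      have hno' : ¬ ∃ j, Typ 𝓑 j T' := by
        rintro ⟨j, hj⟩
        have h1 := comp_of_typ h𝓑 hj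
        rw [hTT] at h1
        obtain ⟨l', hl'⟩ : ∃ l' : Δ, l' ≠ j := by
          have : Nontrivial Δ := Fintype.one_lt_card_iff_nontrivial.1 (by omega)
          exact exists_ne j
        have h2 : (w l', l') ∈ comp 𝓑 T := (hcT _ _).2 (hw l')
        rw [h1, mem_fib] at h2
        exact hl' h2
      obtain ⟨q', hq'⟩ := htrans T' hno' (by rw [hTT]; exact hne)
      have h3 : x = q' l := by
        have := mem_sec.2 hxT
        rwa [hq', mem_singleton] at this
      have h4 : (w l, l) ∈ comp 𝓑 T' := by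
        rw [hTT]
        exact (hcT _ _).2 (hw l)
      rw [hcomp T' q' hq', ← h3] at h4
      exact nb_symm h4
    calc ∑ l, (sec (uni 𝓑 (comp 𝓑 T)) l).card ≤ ∑ _l : Δ, r := sum_le_sum fun l _ => this l
      _ = Fintype.card Δ * r := by simp
  omega

/-- the sets `T` of type `j` cover everything outside the fibre `j` -/
theorem exists_typ {𝓑 : Set (Finset α)} {k r : ℕ} (h𝓑 : IsOneDesign 𝓑 k r) {j l : Δ}
    (hlj : l ≠ j) (p : α) : ∃ T, Typ 𝓑 j T ∧ (p, l) ∈ T := by
  have hr := h𝓑.one_le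
  have h1 : {B | B ∈ 𝓑 ∧ p ∈ B}.Nonempty := by
    apply Set.nonempty_of_ncard_ne_zero
    rw [h𝓑.card_point p]
    omega
  obtain ⟨B₀, hB₀, hp⟩ := h1
  have hsec : ∀ m, sec (univ.filter (fun z : α × Δ => (z.2 = l ∧ z.1 ∈ B₀) ∨
      (z.2 ≠ l ∧ z.2 ≠ j ∧ z.1 = p))) m = if m = l then B₀ else if m = j then ∅ else {p} := by
    intro m
    ext x
    rw [mem_sec, mem_filter]
    by_cases hml : m = l
    · simp [hml]
    · by_cases hmj : m = j
      · simp [hml, hmj, Ne.symm hlj]
      · simp [hml, hmj]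
  refine ⟨univ.filter (fun z : α × Δ => (z.2 = l ∧ z.1 ∈ B₀) ∨
      (z.2 ≠ l ∧ z.2 ≠ j ∧ z.1 = p)), ⟨?_, l, hlj, ?_, ?_⟩, ?_⟩
  · rw [hsec, if_neg (Ne.symm hlj), if_pos rfl]
  · rw [hsec, if_pos rfl]
    exact hB₀
  · intro m hm hmj
    rw [hsec, if_neg hm, if_neg hmj, card_singleton]
  · simp [hp]

/-- automorphisms map fibres to fibres -/
theorem map_fib {𝓑 : Set (Finset α)} {k r : ℕ} (h𝓑 : IsOneDesign 𝓑 k r)
    (hΔ : 2 ≤ Fintype.card Δ) (hex : 3 ≤ Fintype.card Δ ∨ 3 ≤ k) [Nonempty α]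
    {g : Equiv.Perm (α × Δ)} (hg : g ∈ aut (blowUp 𝓑 Δ)) (j : Δ) :
    ∃ j', (fib α j).map g.toEmbedding = fib α j' := by
  have hnt : Nontrivial Δ := Fintype.one_lt_card_iff_nontrivial.1 (by omega)
  obtain ⟨l, hl⟩ := exists_ne j
  obtain ⟨p⟩ := ‹Nonempty α›
  obtain ⟨T, hT, -⟩ := exists_typ h𝓑 hl p
  have h1 : comp 𝓑 (T.map g.toEmbedding) = (fib α j).map g.toEmbedding := by
    rw [comp_map hg, comp_of_typ h𝓑 hT]
  have h2 : (comp 𝓑 (T.map g.toEmbedding)).card = Fintype.card α := by
    rw [h1, card_map, card_fib]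
  have h3 : ∃ j', Typ 𝓑 j' (T.map g.toEmbedding) := by
    have : Nonempty α := ⟨p⟩
    by_cases hk : 3 ≤ k
    · exact typ_of_three h𝓑 hk h2
    · have hk2 : k = 2 := by
        have := h𝓑.two_le
        omega
      subst hk2
      refine typ_of_two h𝓑 hΔ h2 ?_
      -- the union over all sets of type `j` is large
      have h4 : (univ.filter (fun z : α × Δ => ¬ z.2 = j)) ⊆ uni 𝓑 (fib α j) := by
        rintro ⟨x, m⟩ hm
        rw [mem_filter] at hm
        obtain ⟨T', hT', hx⟩ := exists_typ h𝓑 hm.2 x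
        exact mem_uni.2 ⟨T', hx, comp_of_typ h𝓑 hT'⟩
      have h5 : (univ.filter (fun z : α × Δ => ¬ z.2 = j)).card + Fintype.card α
          = Fintype.card α * Fintype.card Δ := by
        have := Finset.card_filter_add_card_filter_not (s := (univ : Finset (α × Δ)))
          (fun z : α × Δ => z.2 = j)
        rw [show (univ.filter (fun z : α × Δ => z.2 = j)) = fib α j from rfl, card_fib,
          card_univ, Fintype.card_prod] at this
        omega
      have h6 := card_le_card h4
      have h7 := card_le_card (uni_map hg (fib α j))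
      rw [card_map, ← h1] at h7
      have h8 : 3 ≤ Fintype.card Δ := by omega
      have h9 : Fintype.card α * 3 ≤ Fintype.card α * Fintype.card Δ := Nat.mul_le_mul_left _ h8
      omega
  obtain ⟨j', hj'⟩ := h3
  exact ⟨j', by rw [← h1, comp_of_typ h𝓑 hj']⟩

/-- the known inclusion -/
theorem wreath_le {𝓑 : Set (Finset α)} {g : Equiv.Perm (α × Δ)} (hg : g ∈ wreath Δ (aut 𝓑)) :
    g ∈ aut (blowUp 𝓑 Δ) := by
  -- one inclusion for every element of the wreath product
  have key : ∀ f : Equiv.Perm (α × Δ), f ∈ wreath Δ (aut 𝓑) → ∀ B ∈ blowUp 𝓑 Δ,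
      B.map f.toEmbedding ∈ blowUp 𝓑 Δ := by
    rintro f ⟨h, σ, hh, hf⟩ B hB
    rw [mem_blowUp] at hB ⊢
    obtain ⟨i, hi, hl⟩ := hB
    have hsec : ∀ l, sec (B.map f.toEmbedding) (σ l) = (sec B l).map (h l).toEmbedding := by
      intro l
      ext x
      rw [mem_sec, mem_map, mem_map]
      constructor
      · rintro ⟨⟨y, m⟩, hy, he⟩
        have he' : f (y, m) = (x, σ l) := he
        rw [hf, Prod.mk.injEq] at he'
        have hm : m = l := σ.injective he'.2
        subst hm
        exact ⟨y, mem_sec.2 hy, he'.1⟩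
      · rintro ⟨y, hy, he⟩
        refine ⟨(y, l), mem_sec.1 hy, ?_⟩
        have he' : h l y = x := he
        show f (y, l) = _
        rw [hf, he']
    refine ⟨σ i, ?_, fun j hj => ?_⟩
    · rw [hsec]
      exact (mem_aut_iff (hh i) _).2 hi
    · obtain ⟨l, rfl⟩ := σ.surjective j
      rw [hsec, card_map]
      exact hl l fun h => hj (by rw [h])
  show (fun B : Finset (α × Δ) => B.map g.toEmbedding) '' blowUp 𝓑 Δ = blowUp 𝓑 Δ
  apply Set.Subset.antisymm
  · rintro _ ⟨B, hB, rfl⟩
    exact key g hg B hB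
  · intro B hB
    refine ⟨B.map (g⁻¹ : Equiv.Perm (α × Δ)).toEmbedding,
      key _ (Subgroup.inv_mem _ hg) B hB, ?_⟩
    simp only [Finset.map_map]
    ext x
    simp

/-- **Main theorem.** Let `𝓑` be the block set of a `1`-design with block size `k ≥ 2` on a finite
set `α` and let `Δ` have `e ≥ 2` elements, with `e ≥ 3` or `k ≥ 3`. Then the automorphism group of
the blow-up is the wreath product of the automorphism group of the design with the symmetric group
of `Δ`. -/
theorem result {α Δ : Type} [Fintype α] [Fintype Δ] [DecidableEq α] [DecidableEq Δ]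
    {𝓑 : Set (Finset α)} {k r : ℕ} (h𝓑 : IsOneDesign 𝓑 k r) (hΔ : 2 ≤ Fintype.card Δ)
    (hex : 3 ≤ Fintype.card Δ ∨ 3 ≤ k) : aut (blowUp 𝓑 Δ) = wreath Δ (aut 𝓑) := by
  classical
  apply le_antisymm
  swap
  · intro g hg
    exact wreath_le hg
  intro g hg
  rcases isEmpty_or_nonempty α with hα | hα
  · exact ⟨fun _ => 1, 1, fun _ => Subgroup.one_mem _, fun p => (hα.false p).elim⟩
  choose s hs using map_fib h𝓑 hΔ hex hg
  have hsnd : ∀ p j, (g (p, j)).2 = s j := by
    intro p j
    have h1 : g (p, j) ∈ (fib α j).map g.toEmbedding :=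
      mem_map_of_mem g.toEmbedding (mem_fib.2 rfl)
    rw [hs, mem_fib] at h1
    exact h1
  have hsinj : Function.Injective s := by
    intro j j' hjj
    obtain ⟨p⟩ := hα
    have h1 : g (p, j) ∈ (fib α j').map g.toEmbedding := by
      rw [hs, mem_fib, hsnd, hjj]
    obtain ⟨y, hy, he⟩ := mem_map.1 h1
    have h2 : y = (p, j) := g.injective he
    rw [h2, mem_fib] at hy
    exact hy
  let σ : Equiv.Perm Δ := Equiv.ofBijective s (Finite.injective_iff_bijective.1 hsinj)
  have hinj : ∀ j, Function.Injective (fun p => (g (p, j)).1) := by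
    intro j p p' hpp
    have : g (p, j) = g (p', j) := Prod.ext hpp (by rw [hsnd, hsnd])
    exact congrArg Prod.fst (g.injective this)
  let h : Δ → Equiv.Perm α := fun j =>
    Equiv.ofBijective (fun p => (g (p, j)).1) (Finite.injective_iff_bijective.1 (hinj j))
  have hgh : ∀ p j, g (p, j) = (h j p, σ j) := fun p j => Prod.ext rfl (hsnd p j)
  refine ⟨h, σ, fun j => ?_, hgh⟩
  -- `h j` maps blocks to blocks
  have hmap : ∀ B₀ ∈ 𝓑, B₀.map (h j).toEmbedding ∈ 𝓑 := by
    intro B₀ hB₀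
    obtain ⟨p⟩ := hα
    have hsec : ∀ m, sec (univ.filter (fun z : α × Δ => (z.2 = j ∧ z.1 ∈ B₀) ∨
        (z.2 ≠ j ∧ z.1 = p))) m = if m = j then B₀ else {p} := by
      intro m
      ext x
      rw [mem_sec, mem_filter]
      by_cases hml : m = j
      · simp [hml]
      · simp [hml]
    set B := univ.filter (fun z : α × Δ => (z.2 = j ∧ z.1 ∈ B₀) ∨ (z.2 ≠ j ∧ z.1 = p)) with hB
    have hBb : B ∈ blowUp 𝓑 Δ := by
      rw [mem_blowUp]
      refine ⟨j, ?_, fun l hl => ?_⟩
      · rw [hsec, if_pos rfl]; exact hB₀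
      · rw [hsec, if_neg hl, card_singleton]
    have hgB := (mem_aut_iff hg B).2 hBb
    rw [mem_blowUp] at hgB
    obtain ⟨i, hi, hl⟩ := hgB
    have hsg : sec (B.map g.toEmbedding) (σ j) = B₀.map (h j).toEmbedding := by
      ext x
      rw [mem_sec, mem_map, mem_map]
      constructor
      · rintro ⟨⟨y, m⟩, hy, he⟩
        have he' : g (y, m) = (x, σ j) := he
        rw [hgh, Prod.mk.injEq] at he'
        have hm : m = j := σ.injective he'.2
        subst hm
        have := mem_sec.2 hy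
        rw [hsec, if_pos rfl] at this
        exact ⟨y, this, he'.1⟩
      · rintro ⟨y, hy, he⟩
        refine ⟨(y, j), mem_sec.1 (by rw [hsec, if_pos rfl]; exact hy), ?_⟩
        have he' : h j y = x := he
        show g (y, j) = _
        rw [hgh, he']
    have hij : σ j = i := by
      by_contra hne
      have h1 := hl (σ j) hne
      rw [hsg, card_map] at h1
      have h2 := h𝓑.card_block B₀ hB₀
      have h3 := h𝓑.two_le
      omega
    rw [← hij, hsg] at hi
    exact hi
  show (fun B : Finset α => B.map (h j).toEmbedding) '' 𝓑 = 𝓑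
  have hfin : 𝓑.Finite := Set.toFinite _
  refine Set.eq_of_subset_of_ncard_le ?_ ?_ hfin
  · rintro _ ⟨B, hB, rfl⟩
    exact hmap B hB
  · rw [Set.ncard_image_of_injective _ (Finset.map_injective _)]

end Pool.Agent.Results.MP_482303_co.WreathBlowUp
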